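import Pool.Agent.Work.MP_80f671_an.Main

/-!
# Finite D'Angelo type implies finite ideal type in the sense of Kohn

For a smooth pseudoconvex hypersurface, if the D'Angelo 1-type at a boundary point `x₀` is finite,
then Kohn's sequence of ideals at `x₀` reaches `1`.

All definitions the statement uses are in `Pool.Agent.Work.MP_80f671_an.Kohn`.

Idea of the proof. Let `J` be the union of Kohn's ideals and suppose `1 ∉ J`. Let `P` be a minimal
prime over `J` closed under domination, and `K` the fraction field of the ring of smooth functions
modulo `P`. Linear algebra over `K` gives a nonzero derivation `L` of `K` of type `(1,0)` in the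
null space of the Levi form. Pseudoconvexity forces a third order identity, so the `K`-Lie algebra
generated by `L` and its conjugate stays in the null space. It has a formal leaf with Taylor
coefficients in `K`, along which `r` vanishes to infinite order (again by pseudoconvexity). Lifting
to smooth functions gives points `y → x₀` and curves through them with high order of contact, and
a compactness argument for ideals of formal power series gives a formal curve through `x₀` with
infinite order of contact; its truncations show that the type at `x₀` is infinite.
-/

namespace Pool.Agent.Results.MP_80f671_an.IdealType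

open Filter Topology ContDiff Pool.Agent.Work.MP_80f671_an

/-- Let `Ω` be a pseudoconvex domain with smooth boundary and defining function `r`. If the
D'Angelo 1-type at the boundary point `x₀` is finite, then `1` lies in one of Kohn's ideals at
`x₀`. -/
theorem result {n : ℕ} {Ω : Set (Fin n → ℂ)} {r : (Fin n → ℂ) → ℝ}
    (hr : IsDefiningFunction Ω r) (hΩ : IsPseudoconvex Ω r) {x₀ : Fin n → ℂ}
    (hx₀ : x₀ ∈ frontier Ω) (ht : dAngeloType r x₀ < ⊤) :
    ∃ k : ℕ, (fun _ => (1 : ℂ)) ∈ kohnIdeal r x₀ k := by
  have hs := hr.smooth x₀ hx₀
  have hmem := hr.mem_iff x₀ hx₀
  have hdr := hr.deriv_ne x₀ hx₀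
  refine local_main hs (zero_of_frontier hx₀ (hs.self_of_nhds).continuousAt hmem) hdr ?_ ht
  filter_upwards [frontier_of_zero hs hmem hdr] with y hy h0 v hv
  exact hΩ y (hy h0) v hv

end Pool.Agent.Results.MP_80f671_an.IdealType
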